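import Pool.Graph.R_seed8.Y519.UN.Last

/-!
# Landsberg metrics on the torus

Slowing down a metric which does not depend on the first coordinate: the metric
`F (0, B (x 1)) y` has the spray `B' (x 1)` times the spray of `F`.
-/

set_option autoImplicit false

open Set Filter
open scoped ContDiff Topology

namespace Pool.Agent.H792.Torus

open Pool.Agent.Y519.UN

noncomputable section

/-- the coordinate space -/
abbrev V2 : Type := Fin 2 → ℝ

/-- the reparametrisation of the base -/
def P (B : ℝ → ℝ) (x : V2) : V2 := ![0, B (x 1)]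

/-- the slowed down metric -/
def Fh (F : V2 → V2 → ℝ) (B : ℝ → ℝ) (x y : V2) : ℝ := F (P B x) y

theorem P_smooth {B : ℝ → ℝ} (hB : ContDiff ℝ ∞ B) : ContDiff ℝ ∞ (P B) := by
  rw [contDiff_pi]
  intro i
  obtain rfl | rfl : i = 0 ∨ i = 1 := by fin_cases i <;> simp
  · exact contDiff_const
  · exact hB.comp (contDiff_apply ℝ ℝ (1 : Fin 2))

theorem P_der {B : ℝ → ℝ} (hB : ContDiff ℝ ∞ B) (x v : V2) :
    fderiv ℝ (P B) x v = (deriv B (x 1) * v 1) • (Pi.single 1 1 : V2) := by
  have h : HasFDerivAt (P B) (ContinuousLinearMap.pi (fun i : Fin 2 =>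
      if i = 0 then (0 : V2 →L[ℝ] ℝ) else
        deriv B (x 1) • (ContinuousLinearMap.proj (R := ℝ) (φ := fun _ : Fin 2 => ℝ) 1))) x := by
    rw [hasFDerivAt_pi]
    intro i
    obtain rfl | rfl : i = 0 ∨ i = 1 := by fin_cases i <;> simp
    · rw [if_pos rfl]
      exact hasFDerivAt_const (0 : ℝ) x
    · have h1 : HasDerivAt B (deriv B (x 1)) (x 1) :=
        (hB.differentiable (by simp) _).hasDerivAt
      have h2 : HasFDerivAt (fun z : V2 => z 1)
          (ContinuousLinearMap.proj (R := ℝ) (φ := fun _ : Fin 2 => ℝ) 1) x :=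
        hasFDerivAt_apply 1 x
      rw [if_neg (by decide)]
      exact h1.comp_hasFDerivAt x h2
  rw [h.fderiv]
  funext i
  obtain rfl | rfl : i = 0 ∨ i = 1 := by fin_cases i <;> simp
  · simp
  · simp

/-- joint smoothness of the square of a metric at a non zero vector -/
theorem sq_at {F : V2 → V2 → ℝ} (h : IsFinsler F) {x y : V2} (hy : y ≠ 0) :
    ContDiffAt ℝ ∞ (fun p : V2 × V2 => F p.1 p.2 ^ 2) (x, y) := by
  have ho : IsOpen {p : V2 × V2 | p.2 ≠ 0} := isOpen_ne_fun continuous_snd continuous_const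
  exact ((h.smooth (x, y) hy).contDiffAt (ho.mem_nhds hy)).pow 2

theorem sq_x {F : V2 → V2 → ℝ} (h : IsFinsler F) {x y : V2} (hy : y ≠ 0) :
    DifferentiableAt ℝ (fun z => F z y ^ 2) x := by
  have h1 := sq_at h (x := x) hy
  have h2 : ContDiffAt ℝ ∞ (fun z : V2 => (z, y)) x := by fun_prop
  exact (h1.comp x h2).differentiableAt (by simp)

theorem pdsq_x {F : V2 → V2 → ℝ} (h : IsFinsler F) {x y : V2} (hy : y ≠ 0) (l : Fin 2) :
    DifferentiableAt ℝ (fun z => pd l (fun u => F z u ^ 2) y) x := by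
  have h1 := sq_at h (x := x) hy
  have h2 : ContDiffAt ℝ ∞ (fun z : V2 => fderiv ℝ (fun u => F z u ^ 2) y) x :=
    ContDiffAt.fderiv (f := fun z u => F z u ^ 2) (n := ∞) (g := fun _ => y)
      h1 contDiffAt_const (by simp)
  have h3 : ContDiffAt ℝ ∞ (fun z : V2 => pd l (fun u => F z u ^ 2) y) x := by
    unfold pd
    exact h2.clm_apply contDiffAt_const
  exact h3.differentiableAt (by simp)

/-- the derivative of a function on the base which does not depend on the first coordinate -/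
theorem pd_zero {g : V2 → ℝ} (hg : ∀ x x', x 1 = x' 1 → g x = g x') (x : V2)
    (hd : DifferentiableAt ℝ g x) : pd 0 g x = 0 := by
  unfold pd
  have h1 : HasDerivAt (fun t : ℝ => g (x + t • (Pi.single 0 1 : V2)))
      (fderiv ℝ g x (Pi.single 0 1)) 0 := by
    have h2 : HasDerivAt (fun t : ℝ => x + t • (Pi.single 0 1 : V2)) (Pi.single 0 1) 0 := by
      have := ((hasDerivAt_id (0 : ℝ)).smul_const (Pi.single 0 1 : V2)).const_add x
      simpa using this
    have h3 : HasFDerivAt g (fderiv ℝ g x) (x + (0 : ℝ) • (Pi.single 0 1 : V2)) := by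
      simpa using hd.hasFDerivAt
    exact h3.comp_hasDerivAt (0 : ℝ) h2
  have h4 : (fun t : ℝ => g (x + t • (Pi.single 0 1 : V2))) = fun _ => g x := by
    funext t
    apply hg
    simp
  rw [h4] at h1
  exact h1.unique (hasDerivAt_const _ _)

theorem pd_comp {g : V2 → ℝ} {B : ℝ → ℝ} (hB : ContDiff ℝ ∞ B) (x : V2)
    (hd : DifferentiableAt ℝ g (P B x)) (k : Fin 2) :
    pd k (fun z => g (P B z)) x = deriv B (x 1) * (Pi.single k 1 : V2) 1 * pd 1 g (P B x) := by
  unfold pd
  have h1 : HasFDerivAt (fun z => g (P B z)) ((fderiv ℝ g (P B x)).comp (fderiv ℝ (P B) x)) x :=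
    hd.hasFDerivAt.comp x ((P_smooth hB).differentiable (by simp) x).hasFDerivAt
  rw [h1.fderiv]
  simp only [ContinuousLinearMap.comp_apply, P_der hB, map_smul, smul_eq_mul]

theorem spr_Fh {F : V2 → V2 → ℝ} (h : IsFinsler F) (ht : ∀ x x' y, x 1 = x' 1 → F x y = F x' y)
    {B : ℝ → ℝ} (hB : ContDiff ℝ ∞ B) (x y : V2) (hy : y ≠ 0) :
    spr (Fh F B) x y = deriv B (x 1) • spr F (P B x) y := by
  have e1 : ∀ l k, pd k (fun z => pd l (fun u => Fh F B z u ^ 2) y) x
      = deriv B (x 1) * (Pi.single k 1 : V2) 1 *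
        pd 1 (fun z => pd l (fun u => F z u ^ 2) y) (P B x) := fun l k =>
    pd_comp (g := fun z => pd l (fun u => F z u ^ 2) y) hB x (pdsq_x h hy l) k
  have e2 : ∀ l, pd l (fun z => Fh F B z y ^ 2) x
      = deriv B (x 1) * (Pi.single l 1 : V2) 1 * pd 1 (fun z => F z y ^ 2) (P B x) := fun l =>
    pd_comp (g := fun z => F z y ^ 2) hB x (sq_x h hy) l
  have e3 : ∀ l, pd 0 (fun z => pd l (fun u => F z u ^ 2) y) (P B x) = 0 := fun l =>
    pd_zero (fun a b hab => by
      have : (fun u => F a u ^ 2) = fun u => F b u ^ 2 := by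
        funext u
        rw [ht a b u hab]
      simp only [this]) _ (pdsq_x h hy l)
  have e4 : pd 0 (fun z => F z y ^ 2) (P B x) = 0 :=
    pd_zero (fun a b hab => by rw [ht a b y hab]) _ (sq_x h hy)
  have e5 : (Matrix.of (fund (Fh F B) x y)) = (Matrix.of (fund F (P B x) y)) := rfl
  unfold spr
  rw [e5, ← Matrix.mulVec_smul]
  congr 1
  funext l
  simp only [Fin.sum_univ_two, e1, e2, e3, Pi.smul_apply, smul_eq_mul]
  obtain rfl | rfl : l = 0 ∨ l = 1 := by fin_cases l <;> simp
  · simp [e4]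
    ring
  · simp
    ring

theorem pd_congr {g₁ g₂ : V2 → ℝ} {y : V2} (h : g₁ =ᶠ[𝓝 y] g₂) (i : Fin 2) :
    pd i g₁ =ᶠ[𝓝 y] pd i g₂ := by
  unfold pd
  filter_upwards [h.fderiv (𝕜 := ℝ)] with z hz
  rw [hz]

theorem pd_mul_const (c : ℝ) (g : V2 → ℝ) (i : Fin 2) :
    pd i (fun u => c * g u) = fun u => c * pd i g u := by
  funext y
  unfold pd
  rcases eq_or_ne c 0 with rfl | hc
  · simp
  · by_cases hd : DifferentiableAt ℝ g y
    · rw [fderiv_const_mul hd]
      simp
    · have hd' : ¬ DifferentiableAt ℝ (fun u => c * g u) y := by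
        intro hcon
        apply hd
        have := hcon.const_mul c⁻¹
        have e : (fun u => c⁻¹ * (c * g u)) = g := by
          funext u
          field_simp
        rwa [e] at this
      rw [fderiv_zero_of_not_differentiableAt hd, fderiv_zero_of_not_differentiableAt hd']
      simp

theorem ber_Fh {F : V2 → V2 → ℝ} (h : IsFinsler F) (ht : ∀ x x' y, x 1 = x' 1 → F x y = F x' y)
    {B : ℝ → ℝ} (hB : ContDiff ℝ ∞ B) (x y : V2) (hy : y ≠ 0) (i j k l : Fin 2) :
    ber (Fh F B) x y i j k l = deriv B (x 1) * ber F (P B x) y i j k l := by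
  have e : (fun u => spr (Fh F B) x u i) =ᶠ[𝓝 y] fun u => deriv B (x 1) * spr F (P B x) u i := by
    filter_upwards [isOpen_ne.mem_nhds hy] with u hu
    rw [spr_Fh h ht hB x u hu]
    rfl
  have e' := (pd_congr (pd_congr (pd_congr e l) k) j).eq_of_nhds
  unfold ber
  rw [e']
  simp only [pd_mul_const]

/-- Unicorns on the torus: for every smooth periodic function `B` there is a Landsberg metric with
small torsion on the torus which is a Berwald metric at exactly the points where the derivative of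
`B` vanishes. -/
theorem main (δ : ℝ) (hδ : 0 < δ) (B : ℝ → ℝ) (hB : ContDiff ℝ ∞ B) (hp : ∀ s, B (s + 1) = B s) :
    ∃ F : V2 → V2 → ℝ, IsFinsler F ∧
      (∀ (x : V2) (m : Fin 2 → ℤ) (y : V2), F (fun i => x i + m i) y = F x y) ∧
      (∀ x y, y ≠ 0 → ∀ j k l, lan F x y j k l = 0) ∧
      (∀ x y, y ≠ 0 → ∀ u v w : V2,
        F x y * |∑ i, ∑ j, ∑ k, cart F x y i j k * u i * v j * w k|
          ≤ δ * (√(nsq F x y u) * √(nsq F x y v) * √(nsq F x y w))) ∧
      (∀ x x' y, B (x 1) = B (x' 1) → F x y = F x' y) ∧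
      (∀ x, (∀ y, y ≠ 0 → ∀ i j k l, ber F x y i j k l = 0) ↔ deriv B (x 1) = 0) := by
  obtain ⟨F, hF, ht, hl, hc, hb⟩ := Pool.Agent.Y519.UN.main δ hδ
  have hpm : ∀ (s : ℝ) (m : ℤ), B (s + m) = B s := by
    intro s m
    have := (show Function.Periodic B 1 from hp).int_mul m s
    simpa using this
  refine ⟨Fh F B, ⟨?_, ?_, ?_, ?_⟩, ?_, ?_, ?_, ?_, ?_⟩
  · have hm : MapsTo (fun p : V2 × V2 => (P B p.1, p.2)) {p | p.2 ≠ 0} {p | p.2 ≠ 0} :=
      fun p hp => hp
    have hs : ContDiff ℝ ∞ (fun p : V2 × V2 => (P B p.1, p.2)) :=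
      ((P_smooth hB).comp contDiff_fst).prodMk contDiff_snd
    exact hF.smooth.comp hs.contDiffOn hm
  · exact fun x y hy => hF.pos _ y hy
  · exact fun x y t h0 => hF.hom _ y t h0
  · exact fun x y hy v hv => hF.convex _ y hy v hv
  · intro x m y
    apply ht
    simp [P, hpm]
  · intro x y hy j k l
    have e := hl (P B x) y hy j k l
    have e2 : ∀ i m, fund (Fh F B) x y i m = fund F (P B x) y i m := fun _ _ => rfl
    have e3 : lan (Fh F B) x y j k l = deriv B (x 1) * lan F (P B x) y j k l := by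
      unfold lan
      simp only [ber_Fh hF ht hB x y hy, e2, Fin.sum_univ_two]
      ring
    rw [e3, e, mul_zero]
  · exact fun x y hy u v w => hc (P B x) y hy u v w
  · intro x x' y hxx
    apply ht
    simp [P, hxx]
  · intro x
    constructor
    · intro h0
      obtain ⟨y, hy, i, hi⟩ := hb (P B x)
      have := h0 y hy i i i i
      rw [ber_Fh hF ht hB x y hy] at this
      exact (mul_eq_zero.1 this).resolve_right hi
    · intro h0 y hy i j k l
      rw [ber_Fh hF ht hB x y hy, h0, zero_mul]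

end

end Pool.Agent.H792.Torus
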